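import Mathlib
import Pool.Agent.TH888.R.Base

set_option autoImplicit false

/-!
# Sets of primes with logarithmic counting function have bounded weight
-/

namespace Run7.h380.RS

open Filter Topology MeasureTheory Asymptotics Finset
open Pool.Agent.TH888.R (Pt VS cS wt)
open Pool.Agent.H305R2 (roughPart)

open Classical in
theorem cS_eq (S : Set ℕ) (s : ℕ → ℕ) (n : ℕ) : cS S s n =
    {p : ℕ | p < n + 1 ∧ p.Prime ∧ p ∈ S ∧ (roughPart p (s p)).Prime}.ncard := by
  unfold cS
  rw [← Set.ncard_coe_finset]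
  congr 1
  ext p
  constructor
  · intro h
    have h1 := (@Finset.mem_filter _ _ _ _ _).1 (Finset.mem_coe.1 h)
    exact ⟨mem_range.1 h1.1, h1.2⟩
  · rintro ⟨h1, h2⟩
    exact Finset.mem_coe.2 ((@Finset.mem_filter _ _ _ _ _).2 ⟨mem_range.2 h1, h2⟩)

open Classical in
theorem block {S : Set ℕ} {C : ℝ} (h : ∀ k : ℕ,
    ({p : ℕ | p < 2 ^ (k + 1) ∧ p ∈ S ∧ p.Prime}.ncard : ℝ) ≤ C * (k + 1)) (K : ℕ) :
    ∑ q ∈ range (2 ^ K), (if q ∈ S ∧ q.Prime then wt q else 0) ≤
      C * (12 - (2 * (K : ℝ) ^ 2 + 8 * K + 12) / 2 ^ K) := by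
  induction K with
  | zero =>
    rw [pow_zero, range_one, sum_singleton, if_neg (fun h => Nat.not_prime_zero h.2)]
    norm_num
  | succ K ih =>
    have h1 : ∑ q ∈ range (2 ^ (K + 1)), (if q ∈ S ∧ q.Prime then wt q else 0) =
        ∑ q ∈ range (2 ^ K), (if q ∈ S ∧ q.Prime then wt q else 0) +
        ∑ q ∈ Ico (2 ^ K) (2 ^ (K + 1)), (if q ∈ S ∧ q.Prime then wt q else 0) := by
      rw [range_eq_Ico, range_eq_Ico]
      exact (sum_Ico_consecutive _ (Nat.zero_le _) (Nat.pow_le_pow_right (by norm_num)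
        (Nat.le_succ K))).symm
    have hpos : (0 : ℝ) < 2 ^ K := by positivity
    have h2 : ∑ q ∈ Ico (2 ^ K) (2 ^ (K + 1)), (if q ∈ S ∧ q.Prime then wt q else 0) ≤
        ∑ q ∈ Ico (2 ^ K) (2 ^ (K + 1)), (if q ∈ S ∧ q.Prime then ((K : ℝ) + 1) / 2 ^ K else 0) := by
      refine sum_le_sum fun q hq => ?_
      rw [mem_Ico] at hq
      split_ifs
      · have hq0 : (0 : ℝ) < q := by
          have : 0 < q := lt_of_lt_of_le (by positivity) hq.1
          exact_mod_cast this
        have hq1 : (2 : ℝ) ^ K ≤ q := by exact_mod_cast hq.1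
        have hq2 : (q : ℝ) ≤ 2 ^ (K + 1) := by exact_mod_cast hq.2.le
        have hlog : Real.log q ≤ K + 1 := by
          calc Real.log q ≤ Real.log (2 ^ (K + 1)) := Real.log_le_log hq0 hq2
            _ = ((K + 1 : ℕ) : ℝ) * Real.log 2 := Real.log_pow _ _
            _ ≤ ((K + 1 : ℕ) : ℝ) * 1 := by
                have := Real.log_two_lt_d9
                gcongr
                linarith
            _ = K + 1 := by push_cast; ring
        show Real.log q / q ≤ _
        gcongr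
      · exact le_rfl
    have h3 : ∑ q ∈ Ico (2 ^ K) (2 ^ (K + 1)),
        (if q ∈ S ∧ q.Prime then ((K : ℝ) + 1) / 2 ^ K else 0) ≤
        ∑ q ∈ range (2 ^ (K + 1)), (if q ∈ S ∧ q.Prime then ((K : ℝ) + 1) / 2 ^ K else 0) := by
      refine sum_le_sum_of_subset_of_nonneg ?_ fun q _ _ => ?_
      · intro q hq
        rw [mem_Ico] at hq
        exact mem_range.2 hq.2
      · split_ifs
        · positivity
        · exact le_rfl
    have h4 : ∑ q ∈ range (2 ^ (K + 1)), (if q ∈ S ∧ q.Prime then ((K : ℝ) + 1) / 2 ^ K else 0) ≤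
        C * (K + 1) * (((K : ℝ) + 1) / 2 ^ K) := by
      have h5 : {p : ℕ | p < 2 ^ (K + 1) ∧ p ∈ S ∧ p.Prime} =
          (((range (2 ^ (K + 1))).filter (fun p => p ∈ S ∧ p.Prime) : Finset ℕ) : Set ℕ) := by
        ext p
        simp
      have h6 := h K
      rw [h5, Set.ncard_coe_finset] at h6
      rw [← sum_filter, sum_const, nsmul_eq_mul]
      exact mul_le_mul_of_nonneg_right h6 (by positivity)
    rw [h1]
    refine (add_le_add ih (h2.trans (h3.trans h4))).trans (le_of_eq ?_)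
    push_cast
    rw [pow_succ]
    field_simp
    ring

open Classical in
theorem bdd {S : Set ℕ} {C : ℝ} (hC : 0 ≤ C) (h : ∀ k : ℕ,
    ({p : ℕ | p < 2 ^ (k + 1) ∧ p ∈ S ∧ p.Prime}.ncard : ℝ) ≤ C * (k + 1)) (n : ℕ) :
    VS S n ≤ C * 12 := by
  have h1 : VS S n ≤ ∑ q ∈ range (2 ^ (n + 1)), (if q ∈ S ∧ q.Prime then wt q else 0) := by
    unfold VS
    refine sum_le_sum_of_subset_of_nonneg (Finset.range_mono Nat.lt_two_pow_self.le) fun q _ _ => ?_
    split_ifs
    · exact Pool.Agent.TH888.R.wt_nonneg q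
    · exact le_rfl
  refine h1.trans ((block h (n + 1)).trans ?_)
  have : 0 ≤ (2 * ((n + 1 : ℕ) : ℝ) ^ 2 + 8 * ((n + 1 : ℕ) : ℝ) + 12) / 2 ^ (n + 1) := by positivity
  gcongr
  linarith

/-- The indices of the prime values have bounded weight. -/
theorem vs_bdd {s : ℕ → ℕ} {c : ℝ} (h : Pt s c Set.univ) :
    ¬ Tendsto (VS {p : ℕ | (roughPart p (s p)).Prime}) atTop atTop := by
  obtain ⟨B, hB, hlaw⟩ := h.law Pool.Agent.TH888.R.VS_univ_tendsto
  have h1 := Pool.Agent.TH888.R.bigO_all hB hlaw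
  have h2 : (fun n : ℕ => Real.sqrt (Real.log n) * (Real.log (Real.log n)) ^ ((5 : ℝ) / 2)) =O[atTop]
      fun n : ℕ => Real.log n := by
    have e1 : Tendsto (fun n : ℕ => Real.log n) atTop atTop :=
      Real.tendsto_log_atTop.comp tendsto_natCast_atTop_atTop
    have e2 := ((isLittleO_log_rpow_rpow_atTop ((5 : ℝ) / 2) (show (0 : ℝ) < 1 / 2 by norm_num)).comp_tendsto
      e1).isBigO
    have e3 := (isBigO_refl (fun n : ℕ => Real.sqrt (Real.log n)) atTop).mul e2
    refine e3.congr' (Eventually.of_forall fun n => rfl) ?_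
    filter_upwards [e1.eventually_ge_atTop 0] with n hn
    simp only [Function.comp_apply]
    rw [← Real.sqrt_eq_rpow, Real.mul_self_sqrt hn]
  have h3 : (fun n : ℕ => (cS Set.univ s n : ℝ)) =O[atTop] fun n : ℕ => Real.log n := by
    have h4 := (h1.trans h2).add (isBigO_const_mul_self c (fun n : ℕ => Real.log n) atTop)
    refine h4.congr_left fun n => ?_
    ring
  obtain ⟨K, hK⟩ := h3.bound
  obtain ⟨n₀, hn₀⟩ := eventually_atTop.1 hK
  set D : ℝ := |K| + n₀ + 1 with hD
  have hD0 : 0 ≤ D := by positivity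
  have hcount : ∀ n : ℕ, (cS Set.univ s n : ℝ) ≤ |K| * Real.log n + (n₀ + 1) := by
    intro n
    rcases le_or_gt n₀ n with hn | hn
    · have h5 := hn₀ n hn
      rw [Real.norm_of_nonneg (Nat.cast_nonneg _),
        Real.norm_of_nonneg (Real.log_natCast_nonneg n)] at h5
      have h6 : K * Real.log n ≤ |K| * Real.log n :=
        mul_le_mul_of_nonneg_right (le_abs_self K) (Real.log_natCast_nonneg n)
      have : (0 : ℝ) ≤ n₀ + 1 := by positivity
      linarith
    · have h5 : cS Set.univ s n ≤ n + 1 := by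
        rw [cS_eq]
        calc {p : ℕ | p < n + 1 ∧ p.Prime ∧ p ∈ Set.univ ∧ (roughPart p (s p)).Prime}.ncard
            ≤ ((range (n + 1) : Finset ℕ) : Set ℕ).ncard :=
              Set.ncard_le_ncard (fun p hp => Finset.mem_coe.2 (mem_range.2 hp.1))
                (Finset.finite_toSet _)
          _ = n + 1 := by rw [Set.ncard_coe_finset, card_range]
      have h6 : (cS Set.univ s n : ℝ) ≤ n₀ + 1 := by
        have : cS Set.univ s n ≤ n₀ + 1 := by omega
        exact_mod_cast this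
      have h7 : 0 ≤ |K| * Real.log n := mul_nonneg (abs_nonneg _) (Real.log_natCast_nonneg n)
      linarith
  intro ht
  have hb : ∀ n, VS {p : ℕ | (roughPart p (s p)).Prime} n ≤ D * 12 := by
    refine bdd hD0 fun k => ?_
    have h5 : {p : ℕ | p < 2 ^ (k + 1) ∧ p ∈ {p : ℕ | (roughPart p (s p)).Prime} ∧ p.Prime}.ncard ≤
        cS Set.univ s (2 ^ (k + 1)) := by
      rw [cS_eq]
      refine Set.ncard_le_ncard ?_ ((Set.finite_lt_nat (2 ^ (k + 1) + 1)).subset fun p hp => hp.1)
      rintro p ⟨h1, h2, h3⟩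
      exact ⟨by omega, h3, Set.mem_univ _, h2⟩
    have h6 : (cS Set.univ s (2 ^ (k + 1)) : ℝ) ≤ D * (k + 1) := by
      refine (hcount _).trans ?_
      have h7 : Real.log ((2 ^ (k + 1) : ℕ) : ℝ) ≤ k + 1 := by
        push_cast
        rw [Real.log_pow]
        have := Real.log_two_lt_d9
        have h8 : ((k + 1 : ℕ) : ℝ) * Real.log 2 ≤ ((k + 1 : ℕ) : ℝ) * 1 := by
          gcongr
          linarith
        push_cast at h8
        push_cast
        linarith
      have h8 : |K| * Real.log ((2 ^ (k + 1) : ℕ) : ℝ) ≤ |K| * (k + 1) := by gcongr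
      have h9 : ((n₀ : ℝ) + 1) * 1 ≤ (n₀ + 1) * (k + 1) := by
        gcongr
        have : (0 : ℝ) ≤ k := Nat.cast_nonneg k
        linarith
      rw [hD]
      nlinarith
    exact le_trans (Nat.cast_le.2 h5) h6
  obtain ⟨n, hn⟩ := (ht.eventually_gt_atTop (D * 12)).exists
  exact absurd (hb n) (not_le.2 hn)

end Run7.h380.RS
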