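import Pool.Agent.Run7.h380.RS.Bdd
import Pool.Agent.Run7.h380.RF.Rank
import Pool.Agent.H19P.QA

set_option autoImplicit false

/-!
# Primes in the real solutions of the recurrence `T (n + 2) = 2 T (n + 1) + T n`
-/

namespace Run7.h380.RS

open Filter Topology MeasureTheory Asymptotics
open Run7.h380.RF (sol sol_real rank_sol sol_odd shape)

/-- The base `1 + √2`. -/
noncomputable def α : ℝ := 1 + √2

/-- The conjugate base. -/
noncomputable def α' : ℝ := 1 - √2

/-- The real solutions of the recurrence `T (n + 2) = 2 T (n + 1) + T n`. -/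
noncomputable def T (β B : ℝ) (n : ℕ) : ℝ := β * α ^ n + B * α' ^ n

/-- The product, with multiplicity, of the prime factors of `m` that are larger than `p`. -/
def roughPart (p m : ℕ) : ℕ := (m.primeFactorsList.filter (fun r => p < r)).prod

/-- The `p`-rough part of `⌊T β B p⌋`. -/
noncomputable def W (β B : ℝ) (p : ℕ) : ℕ := roughPart p ⌊T β B p⌋₊

open Classical in
/-- The number of primes `p ≤ n` in the set `S` for which `W β B p` is prime. -/
noncomputable def M (S : Set ℕ) (β B : ℝ) (n : ℕ) : ℕ :=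
  ((Finset.range (n + 1)).filter (fun p => p.Prime ∧ p ∈ S ∧ (W β B p).Prime)).card

open Classical in
/-- The sum of `log p / p` over the primes `p ≤ n` in the set `S`. -/
noncomputable def V (S : Set ℕ) (n : ℕ) : ℝ :=
  ∑ p ∈ (Finset.range (n + 1)).filter (fun p => p.Prime ∧ p ∈ S), Real.log p / p

lemma V_eq (S : Set ℕ) (n : ℕ) : V S n = Pool.Agent.TH888.R.VS S n := by
  classical
  unfold V Pool.Agent.TH888.R.VS
  rw [Finset.sum_filter]
  refine Finset.sum_congr rfl fun p _ => ?_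
  by_cases h : p.Prime ∧ p ∈ S
  · rw [if_pos h, if_pos ⟨h.2, h.1⟩]
    rfl
  · rw [if_neg h, if_neg fun h1 => h ⟨h1.2, h1.1⟩]

lemma sqrt2_sq : √(2 : ℝ) * √2 = 2 := Real.mul_self_sqrt (by norm_num)

lemma sqrt2_pos : 0 < √(2 : ℝ) := Real.sqrt_pos.2 (by norm_num)

lemma one_lt_α : 1 < α := by
  unfold α
  linarith [sqrt2_pos]

lemma α_add : α + α' = ((2 : ℤ) : ℝ) := by unfold α α'; push_cast; ring

lemma α_mul : α * α' = -1 := by
  unfold α α'
  linear_combination -sqrt2_sq

lemma T_rec (β B : ℝ) (n : ℕ) : T β B (n + 2) = 2 * T β B (n + 1) + T β B n := by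
  have h1 : α ^ 2 = 2 * α + 1 := by unfold α; linear_combination sqrt2_sq
  have h2 : α' ^ 2 = 2 * α' + 1 := by unfold α'; linear_combination sqrt2_sq
  unfold T
  rw [pow_add α n 2, pow_add α' n 2, h1, h2]
  ring

/-- the first member of the pair -/
lemma T_x (n : ℕ) : T (1 / 2) (1 / 2) n = ((sol n).1 : ℝ) := by
  induction n using Nat.twoStepInduction with
  | zero => simp [T, sol]; norm_num
  | one => simp [T, sol, α, α']; ring
  | more n h1 h2 =>
    rw [T_rec, h1, h2]
    have e1 : (sol (n + 2)).1 = (sol (n + 1)).1 + 2 * (sol (n + 1)).2 := rfl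
    have e3 : (sol (n + 1)).1 = (sol n).1 + 2 * (sol n).2 := rfl
    have e4 : (sol (n + 1)).2 = (sol n).1 + (sol n).2 := rfl
    rw [e1, e3, e4]
    push_cast
    ring

/-- the second member of the pair -/
lemma T_y (n : ℕ) : T (1 / (2 * √2)) (-(1 / (2 * √2))) n = ((sol n).2 : ℝ) := by
  have h0 := sqrt2_pos.ne'
  induction n using Nat.twoStepInduction with
  | zero => simp [T, sol]
  | one =>
    simp only [T, sol, α, α', pow_one]
    push_cast
    field_simp
    ring
  | more n h1 h2 =>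
    rw [T_rec, h1, h2]
    have e1 : (sol (n + 2)).2 = (sol (n + 1)).1 + (sol (n + 1)).2 := rfl
    have e3 : (sol (n + 1)).1 = (sol n).1 + 2 * (sol n).2 := rfl
    have e4 : (sol (n + 1)).2 = (sol n).1 + (sol n).2 := rfl
    rw [e1, e3, e4]
    push_cast
    ring

lemma rough_self {p m : ℕ} (h0 : m ≠ 0) (h : ∀ q : ℕ, q.Prime → q ∣ m → p < q) :
    roughPart p m = m := by
  unfold roughPart
  rw [List.filter_eq_self.2]
  · exact Nat.prod_primeFactorsList h0
  · intro q hq
    rw [Nat.mem_primeFactorsList h0] at hq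
    simpa using h q hq.1 hq.2

lemma lt_factor {p q : ℕ} (hp : p.Prime) (hp2 : p ≠ 2) (hq : q.Prime)
    (h : q ∣ (sol p).1 * (sol p).2) : p < q := by
  have hodd := hp.odd_of_ne_two hp2
  obtain ⟨o1, o2⟩ := sol_odd hodd
  have hqo : Odd q := by
    rcases hq.eq_two_or_odd' with h2 | h2
    · exfalso
      have h1 := o1.mul o2
      rw [← Nat.not_even_iff_odd] at h1
      rw [h2] at h
      exact h1 (even_iff_two_dvd.2 h)
    · exact h2
  have hp3 : 3 ≤ p := by
    have := hp.two_le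
    omega
  rcases rank_sol hp hp2 hq h with ⟨j, hj⟩ | ⟨j, hj⟩
  · have hq2 := hq.two_le
    have hj0 : j ≠ 0 := by
      rintro rfl
      omega
    have : p * 1 ≤ p * j := Nat.mul_le_mul_left p (Nat.one_le_iff_ne_zero.2 hj0)
    omega
  · have hj0 : j ≠ 0 := by
      rintro rfl
      omega
    have hj1 : j ≠ 1 := by
      rintro rfl
      rw [mul_one] at hj
      have h1 : Even (q + 1) := hqo.add_one
      rw [hj, ← Nat.not_odd_iff_even] at h1
      exact h1 hodd
    have : p * 2 ≤ p * j := Nat.mul_le_mul_left p (by omega)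
    omega

lemma sol_pos {p : ℕ} (hp : p.Prime) (hp2 : p ≠ 2) : (sol p).1 ≠ 0 ∧ (sol p).2 ≠ 0 := by
  obtain ⟨o1, o2⟩ := sol_odd (hp.odd_of_ne_two hp2)
  constructor
  · intro h; rw [h] at o1; exact absurd o1 (by decide)
  · intro h; rw [h] at o2; exact absurd o2 (by decide)

lemma W_x {p : ℕ} (hp : p.Prime) (hp2 : p ≠ 2) : W (1 / 2) (1 / 2) p = (sol p).1 := by
  unfold W
  rw [T_x, Nat.floor_natCast]
  exact rough_self (sol_pos hp hp2).1 fun q hq h => lt_factor hp hp2 hq (h.mul_right _)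

lemma W_y {p : ℕ} (hp : p.Prime) (hp2 : p ≠ 2) :
    W (1 / (2 * √2)) (-(1 / (2 * √2))) p = (sol p).2 := by
  unfold W
  rw [T_y, Nat.floor_natCast]
  exact rough_self (sol_pos hp hp2).2 fun q hq h => lt_factor hp hp2 hq (h.mul_left _)

lemma M_eq (S : Set ℕ) (β B : ℝ) (n : ℕ) :
    M S β B n = Pool.Agent.TH888.R.cS S (fun p => ⌊β * α ^ p + B * α' ^ p⌋₊) n := by
  classical
  unfold M Pool.Agent.TH888.R.cS
  rfl

theorem law (B : ℝ) : ∀ᵐ β : ℝ, 0 < β →
    (fun n : ℕ => (M Set.univ β B n : ℝ) -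
      Real.exp Real.eulerMascheroniConstant / Real.log (1 + √2) * Real.log n) =O[atTop]
    (fun n : ℕ => Real.sqrt (Real.log n) * (Real.log (Real.log n)) ^ ((5 : ℝ) / 2)) := by
  filter_upwards [Pool.Agent.H19P.pt_unit one_lt_α α_add α_mul B Set.univ] with β hβ h0
  obtain ⟨B, hB, h⟩ := (hβ h0).law Pool.Agent.TH888.R.VS_univ_tendsto
  simp only [M_eq]
  exact Pool.Agent.TH888.R.bigO_all hB h

theorem law_set (B : ℝ) (S : Set ℕ) (hS : Tendsto (V S) atTop atTop) : ∀ᵐ β : ℝ, 0 < β →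
    (fun n : ℕ => (M S β B n : ℝ) -
      Real.exp Real.eulerMascheroniConstant / Real.log (1 + √2) * V S n) =O[atTop]
    (fun n : ℕ => Real.sqrt (V S n * Real.log (Real.log n)) *
      (Real.log (V S n * Real.log (Real.log n))) ^ 2) := by
  have hV : V S = Pool.Agent.TH888.R.VS S := funext fun n => V_eq S n
  rw [hV] at hS ⊢
  filter_upwards [Pool.Agent.H19P.pt_unit one_lt_α α_add α_mul B S] with β hβ h0
  obtain ⟨B, hB, h⟩ := (hβ h0).law hS
  simp only [M_eq]
  exact Pool.Agent.TH888.R.bigO_set hB hS h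

theorem infinite_iff (B : ℝ) (S : Set ℕ) : ∀ᵐ β : ℝ, 0 < β →
    ({p : ℕ | p.Prime ∧ p ∈ S ∧ (W β B p).Prime}.Infinite ↔ Tendsto (V S) atTop atTop) := by
  have hV : V S = Pool.Agent.TH888.R.VS S := funext fun n => V_eq S n
  rw [hV]
  filter_upwards [Pool.Agent.H19P.pt_unit one_lt_α α_add α_mul B S] with β hβ h0
  constructor
  · intro hi
    by_contra hn
    exact hi ((hβ h0).fin hn)
  · exact (hβ h0).inf

/-- both members of the pair -/
theorem both_finite (B B' : ℝ) : ∀ᵐ β : ℝ, 0 < β → ∀ᵐ β' : ℝ, 0 < β' →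
    {p : ℕ | p.Prime ∧ (W β B p).Prime ∧ (W β' B' p).Prime}.Finite := by
  filter_upwards [Pool.Agent.H19P.pt_unit one_lt_α α_add α_mul B Set.univ] with β hβ h0
  filter_upwards [Pool.Agent.H19P.pt_unit one_lt_α α_add α_mul B'
    {p : ℕ | (Pool.Agent.H305R2.roughPart p ((fun p => ⌊β * α ^ p + B * α' ^ p⌋₊) p)).Prime}]
    with β' hβ' h0'
  exact (hβ' h0').fin (vs_bdd (hβ h0))

end Run7.h380.RS
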